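import Mathlib
import Pool.Agent.H43Sun.Assemble
import Pool.Agent.H43Sun.Val

/-!
MP_0ba4ac_nt, Q1: the conjecture is false. The composite number
`n = 2346847231029325921 = 13·17·37·43·61·73·97·127·281·433` satisfies
`S(n) = ∑_{k<n} binom(-1/(n+1), k)^(n+1) ≡ 0 (mod n^5)`.
-/

namespace Pool.Agent.Results.MP_0ba4ac_nt.CompositeSolution

open H43Sun

theorem result :
    2346847231029325921 = 13 * 17 * 37 * 43 * 61 * 73 * 97 * 127 * 281 * 433 ∧
      1 < 2346847231029325921 ∧ ¬ Nat.Prime 2346847231029325921 ∧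
      (∀ p : ℕ, p.Prime → p ∣ 2346847231029325921 →
        5 * (padicValNat p 2346847231029325921 : ℤ) ≤
          padicValRat p (S 2346847231029325921)) ∧
      (S 2346847231029325921).den.Coprime 2346847231029325921 ∧
      (2346847231029325921 : ℤ) ^ 5 ∣ (S 2346847231029325921).num := by
  have h : (n0 : ℤ) ^ 5 ∣ (S n0).num := n0_pow_dvd_num
  have hpos : 0 < S n0 := S_pos n0 (by unfold n0; norm_num) n0_even
  refine ⟨by norm_num, by norm_num, n0_not_prime, ?_, ?_, ?_⟩
  · intro p hp hpn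
    exact nu_of_dvd n0 (S n0) hpos.ne' h p hp hpn
  · exact coprime_of_dvd_num n0 (S n0) h
  · exact_mod_cast h

end Pool.Agent.Results.MP_0ba4ac_nt.CompositeSolution
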