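import Pool.Agent.H69Sun.Final

/-!
# MP_0ba4ac_nt: forty percent of the integers are composite and violate the congruence
-/

set_option autoImplicit false

namespace Pool.Agent.Results.MP_0ba4ac_nt.LargePrimeFactor

open Pool.Agent.H69Sun

/-- For every modulus `n ^ r`, `r ≥ 2` (`r = 5` is the question): at least `log (3/2) x - C x / log x` of the
integers `n ≤ x` are composite, have a prime factor `p > n ^ (2/3)`, and do not satisfy
`S(n) ≡ 0 (mod n ^ r)`. -/
theorem result : ∃ C : ℝ, ∀ r : ℕ, 2 ≤ r → ∀ x : ℕ, 2 ≤ x →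
    Real.log (3 / 2) * x - C * x / Real.log x ≤
      ({n : ℕ | 1 < n ∧ n ≤ x ∧ ¬ n.Prime ∧ (∃ p : ℕ, p.Prime ∧ p ∣ n ∧ n ^ 2 < p ^ 3) ∧
        ¬ Cong r n}.ncard : ℝ) :=
  many_fail

end Pool.Agent.Results.MP_0ba4ac_nt.LargePrimeFactor
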